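import Pool.Agent.P.MP_b0c4db_lc.Half.Main3
import Pool.Agent.P.MP_b0c4db_lc.Half.Yes2
import Pool.Agent.P.MP_b0c4db_lc.Half.No2
import Pool.Agent.P.MP_b0c4db_lc.Half.Br
import Pool.Agent.P.MP_b0c4db_lc.Half.LP
import Pool.Agent.P.MP_b0c4db_lc.Half.Fld
import Pool.Agent.P.MP_b0c4db_lc.Half.Hon

namespace Pool.Agent.Results.MP_b0c4db_lc.HalfCVP

open Pool.Agent.P.MP_b0c4db_lc

/-- The closest vector problem is `NP`-hard within the factor `max 1 (n ^ c)` for every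
`c < 1 / 2`. -/
theorem result (c : ℝ) (hc : c < 1 / 2) : Hard fun n => max 1 ((n : ℝ) ^ c) :=
  Half.main3 (Half.yes2 Half.br2 Half.lp Half.fld Half.hon) (Half.no2 Half.br1 Half.lp) c hc

end Pool.Agent.Results.MP_b0c4db_lc.HalfCVP
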